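import Mathlib

set_option autoImplicit false

namespace Pool.Agent.Results.MP_058057_co.NotStrict

open Finset

/-- Partitions of `n` into distinct parts (finite sets of positive integers with sum `n`),
no part divisible by 4. -/
def Q (n : ℕ) : ℕ :=
  ((Icc 1 n).powerset.filter fun s => ∑ i ∈ s, i = n ∧ ∀ i ∈ s, ¬ 4 ∣ i).card

/-- `Q` extended by zero to negative integers. -/
def Q₀ (m : ℤ) : ℤ := if m < 0 then 0 else Q m.toNat

/-- `2 (-1)^m` if `n = 4 m^2` with `m ≥ 1`, `1` if `n = 0`, and `0` otherwise. -/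
def xi (n : ℕ) : ℤ :=
  if n = 0 then 1 else ∑ m ∈ Icc 1 n, if n = 4 * m ^ 2 then 2 * (-1) ^ m else 0

def S (k n : ℕ) : ℤ :=
  ∑ j ∈ range (2 * k), (-1) ^ (j * (j + 1) / 2) * Q₀ ((n : ℤ) - ((j * (j + 1) / 2 : ℕ) : ℤ))

theorem result : ¬ ∀ n k : ℕ, 1 ≤ k →
    0 ≤ (-1) ^ (k - 1) * (S k n - xi n) ∧
      (0 < (-1) ^ (k - 1) * (S k n - xi n) ↔ k * (2 * k + 1) ≤ n) := by
  intro h
  have h1 := (h 7 1 le_rfl).2.2 (by decide)
  revert h1
  decide +kernel

end Pool.Agent.Results.MP_058057_co.NotStrict
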